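import Mathlib
import Pool.Agent.Lib.MP_f4297e_al.Main

namespace Pool.Agent.Results.MP_f4297e_al.StraightSpheres

/-- The sphere of radius `n` about `o` for the graph distance. -/
def sphere {V : Type} (X : SimpleGraph V) (o : V) (n : ℕ) : Set V :=
  {g | X.dist o g = n}

/-- The vertices of the sphere of radius `n` that are straightly connected to infinity. -/
def straight {V : Type} (X : SimpleGraph V) (o : V) (n : ℕ) : Set V :=
  {g | g ∈ sphere X o n ∧ ∃ γ : ℕ → V, γ 0 = g ∧ (∀ k, X.Adj (γ k) (γ (k + 1))) ∧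
    ∀ k, X.dist o (γ k) = n + k}

theorem result : ∃ (G : Type) (_ : Group G) (S : Finset G),
    Infinite G ∧ Subgroup.closure (S : Set G) = ⊤ ∧
    Filter.liminf (fun n : ℕ =>
      ((straight (SimpleGraph.mulCayley (S : Set G)) 1 n).ncard : ℝ) /
        ((sphere (SimpleGraph.mulCayley (S : Set G)) 1 n).ncard : ℝ)) Filter.atTop = 0 := by
  refine ⟨Pool.Agent.Lib.MP_f4297e_al.G, inferInstance,
    Pool.Agent.Lib.MP_f4297e_al.S_finite.toFinset, inferInstance, ?_, ?_⟩
  · rw [Set.Finite.coe_toFinset]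
    exact Pool.Agent.Lib.MP_f4297e_al.closure_S
  · rw [Set.Finite.coe_toFinset]
    exact Pool.Agent.Lib.MP_f4297e_al.liminf_zero

end Pool.Agent.Results.MP_f4297e_al.StraightSpheres
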